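import Pool.Agent.H.MP_683378_co.Slide

set_option autoImplicit false
open scoped MeasureTheory

namespace Pool.Agent.Results.MP_683378_co.All

/-- The closed solid simplex. -/
def solid {d : ℕ} (S : Affine.Simplex ℝ (EuclideanSpace ℝ (Fin d)) d) :
    Set (EuclideanSpace ℝ (Fin d)) :=
  convexHull ℝ (Set.range S.points)

/-- The facet opposite to vertex `k`. -/
def facet {d : ℕ} (S : Affine.Simplex ℝ (EuclideanSpace ℝ (Fin d)) d) (k : Fin (d + 1)) :
    Set (EuclideanSpace ℝ (Fin d)) :=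
  convexHull ℝ (S.points '' {k}ᶜ)

/-- Non-overlapping, and every facet meets a facet of another member in positive
`(d-1)`-dimensional Hausdorff measure. -/
def Tangled {n d : ℕ} (S : Fin n → Affine.Simplex ℝ (EuclideanSpace ℝ (Fin d)) d) : Prop :=
  (∀ i j, i ≠ j → Disjoint (interior (solid (S i))) (interior (solid (S j)))) ∧
  ∀ i k, ∃ j, j ≠ i ∧ ∃ l, 0 < μH[(d : ℝ) - 1] (facet (S i) k ∩ facet (S j) l)

theorem result (n d : ℕ) (hn : 1 ≤ n) (hd : 1 ≤ d) :
    (∃ S : Fin n → Affine.Simplex ℝ (EuclideanSpace ℝ (Fin d)) d, Tangled S) ↔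
      3 ≤ d ∧ 6 ≤ n ∧ d + 2 ≤ n :=
  ⟨fun ⟨S, h1, h2⟩ => H.MP_683378_co.only hn hd S h1 h2,
    fun ⟨h1, h2, h3⟩ => H.MP_683378_co.build h1 h2 h3⟩

end Pool.Agent.Results.MP_683378_co.All
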